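import Pool.Agent.Results.MP_fd8838_nt.MultiplicativeValues

/-!
# Negative odd integers near the values of multiplicative functions

Let `f` be a positive multiplicative function of at most polynomial growth such that `f p ≤ M p` for the large primes `p`,
with different values at different large primes; for example Euler's function or the sum of the divisors. For all `u ≤ M` but
`M / (log M)^U` EVERY negative odd integer `N` with `|N|` near `α f(u)^e` has a Syracuse orbit which enters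
`[-|N|^δ, -1]`. The values of `f` are in general taken with very large multiplicities, and so this does not follow from the number
of the `N` whose orbits do not come down.

Proof. Write `u = k w` where `k` is composed of the primes `≤ z = M^(1 / J)`, `J` about `log log M`. For most `u` one has
`k ≤ M^η`, and `w` is a product of at most `J` different primes. So `f(w)` is taken at most `(1 + τ)^J` times, `τ` its number of
divisors, which is at most `M^o(1)` on average, even in mean square: and only `M^(1 - c δ)` integers have orbits which do not come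
down (starting library).
-/

set_option autoImplicit false

namespace Pool.Agent.Results.MP_005f52_nt.MultiplicativeValues

open Pool.Agent.N733.TG (LM Expanding lm_totient lm_sigma expanding_pow)
open Pool.Agent.Results.MP_fd8838_nt.MultiplicativeValues (T)

/-- The Syracuse map. -/
def Syr (N : ℤ) : ℤ := (3 * N + 1) / 2 ^ padicValInt 2 (3 * N + 1)

/-- the constants -/
def r0 : ℕ → ℤ := fun _ => -1

theorem T_even {n : ℤ} (h : (2 : ℤ) ∣ n) : T 2 3 r0 n = n / 2 := by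
  unfold T
  rw [if_pos (by exact_mod_cast h)]
  push_cast
  rfl

theorem T_odd {n : ℤ} (h : ¬ (2 : ℤ) ∣ n) : T 2 3 r0 n = (3 * n + 1) / 2 := by
  unfold T
  rw [if_neg (by exact_mod_cast h)]
  unfold r0
  push_cast
  ring_nf

theorem T_neg {n : ℤ} (h : n < 0) : T 2 3 r0 n < 0 := by
  by_cases hd : (2 : ℤ) ∣ n
  · rw [T_even hd]; omega
  · rw [T_odd hd]; omega

theorem iter_neg {n : ℤ} (h : n < 0) (k : ℕ) : (T 2 3 r0)^[k] n < 0 := by
  induction k with
  | zero => exact h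
  | succ k ih => rw [Function.iterate_succ_apply']; exact T_neg ih

theorem syr_spec {s : ℤ} (h : ¬ (2 : ℤ) ∣ s) : ∃ v : ℕ, 1 ≤ v ∧ 3 * s + 1 = 2 ^ v * Syr s ∧ ¬ (2 : ℤ) ∣ Syr s := by
  have h0 : (3 * s + 1) ≠ 0 := by omega
  have h1 : (2 : ℤ) ∣ 3 * s + 1 := by omega
  have h2 : ((2 : ℕ) : ℤ) ^ padicValInt 2 (3 * s + 1) ∣ 3 * s + 1 := padicValInt_dvd _
  push_cast at h2
  have h3 : 3 * s + 1 = 2 ^ padicValInt 2 (3 * s + 1) * Syr s := by
    unfold Syr
    exact (Int.mul_ediv_cancel' h2).symm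
  refine ⟨padicValInt 2 (3 * s + 1), ?_, h3, ?_⟩
  · by_contra hcon
    have h4 : padicValInt 2 (3 * s + 1) = 0 := by omega
    have := (padicValInt_dvd_iff (p := 2) 1 (3 * s + 1)).1 (by simpa using h1)
    omega
  · rintro ⟨t, ht⟩
    have h5 : ((2 : ℕ) : ℤ) ^ (padicValInt 2 (3 * s + 1) + 1) ∣ 3 * s + 1 := by
      push_cast
      refine ⟨t, ?_⟩
      conv_lhs => rw [h3, ht]
      ring
    have := (padicValInt_dvd_iff (p := 2) (padicValInt 2 (3 * s + 1) + 1) (3 * s + 1)).1 h5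
    omega

/-- the terms of the orbit of `T` are the odd terms times powers of `2` -/
theorem odd_part {n : ℤ} (h : ¬ (2 : ℤ) ∣ n) (k : ℕ) :
    ∃ j a : ℕ, (T 2 3 r0)^[k] n = 2 ^ a * Syr^[j] n ∧ ¬ (2 : ℤ) ∣ Syr^[j] n := by
  induction k with
  | zero => exact ⟨0, 0, by simp, h⟩
  | succ k ih =>
    obtain ⟨j, a, h1, h2⟩ := ih
    rw [Function.iterate_succ_apply', h1]
    cases a with
    | succ a =>
      refine ⟨j, a, ?_, h2⟩
      have h3 : (2 : ℤ) ^ (a + 1) * Syr^[j] n = 2 * (2 ^ a * Syr^[j] n) := by ring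
      rw [T_even ⟨2 ^ a * Syr^[j] n, h3⟩, h3, Int.mul_ediv_cancel_left _ (by norm_num)]
    | zero =>
      obtain ⟨v, hv, h3, h4⟩ := syr_spec h2
      refine ⟨j + 1, v - 1, ?_, ?_⟩
      · rw [pow_zero, one_mul, T_odd h2, h3, Function.iterate_succ_apply']
        obtain ⟨w, rfl⟩ : ∃ w, v = w + 1 := ⟨v - 1, by omega⟩
        have h5 : (2 : ℤ) ^ (w + 1) * Syr (Syr^[j] n) = 2 * (2 ^ w * Syr (Syr^[j] n)) := by ring
        rw [h5, Int.mul_ediv_cancel_left _ (by norm_num)]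
        simp
      · rw [Function.iterate_succ_apply']
        exact h4

/-- **Negative odd integers near the values of multiplicative functions.** There is `c` with
`0.0500... = 1 - H(log_3 2) < c < 1` such that the following holds. Let `f` be multiplicative and positive, of at most
polynomial growth, with `f p ≤ M p` at the large primes, and injective there. Let `G` have steps `≥ a > 0` and growth at most
`v^e`. Let `κ ≥ 0`, `0 < δ ≤ 1` and `e (1 - c δ) + κ < 1`. Then for every `U` and all large `M`, for all `u ≤ M` but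
`M / (log M)^U`, the Syracuse orbit of EVERY negative odd integer `N` with `||N| - G (f u)| ≤ f(u)^κ` enters `[-|N|^δ, -1]`.
Euler's function and the sum of the divisors are examples of such functions `f`, and `α v^e` with `α > 0`, `e ≥ 1` is an
example of `G`. -/
theorem result :
    (∃ c : ℝ, 1 - Real.binEntropy (Real.log 2 / Real.log 3) / Real.log 2 < c ∧ c < 1 ∧
      ∀ f : ℕ → ℕ, LM f → ∀ (G : ℕ → ℝ) (e : ℝ), Expanding G e → ∀ κ δ : ℝ, 0 ≤ κ → 0 < δ → δ ≤ 1 →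
        e * (1 - c * δ) + κ < 1 → ∀ U : ℕ, ∃ M₀ : ℕ, ∀ M : ℕ, M₀ ≤ M →
          ({u : ℕ | 1 ≤ u ∧ u ≤ M ∧ ¬ ∀ N : ℤ, N < 0 → Odd N → |(|N| : ℝ) - G (f u)| ≤ (f u : ℝ) ^ κ →
            ∃ k : ℕ, -|(N : ℝ)| ^ δ ≤ ((Syr^[k] N : ℤ) : ℝ) ∧ Syr^[k] N ≤ -1}.ncard : ℝ) ≤ M / Real.log M ^ U) ∧
    (LM Nat.totient ∧ LM (fun m => ∑ d ∈ m.divisors, d)) ∧
    ∀ α d : ℝ, 0 < α → 1 ≤ d → Expanding (fun v => α * (v : ℝ) ^ d) d := by
  refine ⟨?_, ⟨lm_totient, lm_sigma⟩, fun α d hα hd => expanding_pow hα hd⟩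
  obtain ⟨c, hc0, hc1, hch, htail⟩ := Pool.Agent.Results.MP_fd8838_nt.MultiplicativeValues.tail 2 3 le_rfl (by norm_num)
    (by norm_num) (by norm_num)
  have hent := hch (by norm_num)
  push_cast at hent
  rw [Real.qaryEntropy_two] at hent
  refine ⟨c, hent, hc1, fun f hf G e hG κ δ hκ hδ0 hδ1 h1 U => ?_⟩
  obtain ⟨C, hC, hcount⟩ := htail r0 (by
    intro j h1 h2
    obtain rfl : j = 1 := by omega
    unfold r0
    decide)
  obtain ⟨N₀, hN₀⟩ := Pool.Agent.N60.MV.keep_tail (P := fun x y => ∀ k : ℕ, y < |(((T 2 3 r0)^[k] x : ℤ) : ℝ)|)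
    (fun x y y' hy h k => lt_of_le_of_lt hy (h k)) hC hc0 hcount hδ0 (by nlinarith) hf hG hκ h1 U
  refine ⟨N₀, fun N hN => le_trans ?_ (hN₀ N hN)⟩
  have hfin : {u : ℕ | 1 ≤ u ∧ u ≤ N ∧ ¬ ∀ x : ℤ, x ≠ 0 → |(|x| : ℝ) - G (f u)| ≤ (f u : ℝ) ^ κ →
      ¬ ∀ k : ℕ, |(x : ℝ)| ^ δ < |(((T 2 3 r0)^[k] x : ℤ) : ℝ)|}.Finite := by
    apply (Set.finite_Icc 1 N).subset
    intro u hu
    exact ⟨hu.1, hu.2.1⟩
  have hsub : {u : ℕ | 1 ≤ u ∧ u ≤ N ∧ ¬ ∀ n : ℤ, n < 0 → Odd n → |(|n| : ℝ) - G (f u)| ≤ (f u : ℝ) ^ κ →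
      ∃ k : ℕ, -|(n : ℝ)| ^ δ ≤ ((Syr^[k] n : ℤ) : ℝ) ∧ Syr^[k] n ≤ -1} ⊆
      {u : ℕ | 1 ≤ u ∧ u ≤ N ∧ ¬ ∀ x : ℤ, x ≠ 0 → |(|x| : ℝ) - G (f u)| ≤ (f u : ℝ) ^ κ →
      ¬ ∀ k : ℕ, |(x : ℝ)| ^ δ < |(((T 2 3 r0)^[k] x : ℤ) : ℝ)|} := by
    rintro u ⟨a1, a2, a3⟩
    refine ⟨a1, a2, fun h => a3 fun n hn hodd hx => ?_⟩
    have h2 := h n hn.ne hx
    push Not at h2
    obtain ⟨k, hk⟩ := h2
    have hn2 : ¬ (2 : ℤ) ∣ n := by
      rw [Int.odd_iff] at hodd
      omega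
    obtain ⟨j, a, h3, h4⟩ := odd_part hn2 k
    have h5 := iter_neg hn k
    have h6 : (0 : ℤ) < 2 ^ a := by positivity
    have h7 : Syr^[j] n < 0 := by
      by_contra hcon
      push Not at hcon
      have : 0 ≤ 2 ^ a * Syr^[j] n := mul_nonneg h6.le hcon
      omega
    refine ⟨j, ?_, by omega⟩
    have h8 : |((Syr^[j] n : ℤ) : ℝ)| ≤ |(((T 2 3 r0)^[k] n : ℤ) : ℝ)| := by
      rw [h3]
      push_cast
      rw [abs_mul, abs_of_pos (by positivity : (0 : ℝ) < 2 ^ a)]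
      have : (1 : ℝ) ≤ 2 ^ a := one_le_pow₀ (by norm_num)
      nlinarith [abs_nonneg ((Syr^[j] n : ℤ) : ℝ)]
    have h9 := neg_abs_le ((Syr^[j] n : ℤ) : ℝ)
    linarith
  exact_mod_cast Set.ncard_le_ncard hsub hfin

end Pool.Agent.Results.MP_005f52_nt.MultiplicativeValues
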