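import Pool.Agent.N375.AV.F
import Pool.Agent.N375.AV.Ex
import Pool.Agent.Results.MP_005f52_nt.MultiplicativeValues

/-!
# Negative odd integers near the values of additive functions and of their compositions

Let `F = f₁ ∘ ... ∘ f_k`, where each `f_i` is dominated by the largest prime factor of its argument: for example the sum of the
prime factors (with or without multiplicity), the largest prime factor, or Kempner's function. For all `u ≤ M` but
`K M exp(-c' (log M)^(1/(k+1)))` EVERY negative odd integer `N` with `|N|` near `α F(u)^e` has a Syracuse orbit which enters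
`[-|N|^δ, -1]`. The values of `F` are taken with very large multiplicities, and `F(u)` is in general of smaller size than `u`, so
this does not follow from the number of the `N` whose orbits do not come down.

Proof. Write `u = m p` with the largest prime factor `p`, which is large for most `u` (smooth numbers are rare). For a given `m`
the value `f(m p)` determines `p`, so `f(m p)` lies in a set with a power saving for few `p`: summing over `m` one gets that the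
preimages of thin sets are thin, and this can be iterated. Only `K X^(1 - c δ)` negative odd integers of height `≤ X` have
orbits which do not come down to `|N|^δ` (starting library).
-/

set_option autoImplicit false

namespace Pool.Agent.Results.MP_005f52_nt.AdditiveValues

open Pool.Agent.N733.TG (Expanding expanding_pow)
open Pool.Agent.N375.AV (PD comp windows pd_additive pd_sopfr pd_largest pd_kempner)
open Pool.Agent.N60.MV (tail_pow fin_abs)
open Pool.Agent.Results.MP_fd8838_nt.MultiplicativeValues (T)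
open Pool.Agent.Results.MP_005f52_nt.MultiplicativeValues (Syr r0 odd_part iter_neg)

/-- From tail bounds `C X / y ^ c` to the orbits of almost all integers near the values of compositions of functions
dominated by the largest prime factor. -/
theorem keep_tail {P : ℤ → ℝ → Prop} (hmono : ∀ x y y', y ≤ y' → P x y' → P x y) {C c : ℝ} (hC : 0 < C) (hc : 0 < c)
    (h : ∀ X y : ℝ, 1 ≤ X → 1 ≤ y → ({x : ℤ | |(x : ℝ)| ≤ X ∧ P x y}.ncard : ℝ) ≤ C * X / y ^ c)
    {δ : ℝ} (hδ : 0 < δ) (hcδ : c * δ < 1) (fs : List (ℕ → ℕ)) (hfs : ∀ f ∈ fs, PD f) {G : ℕ → ℝ} {e : ℝ}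
    (hG : Expanding G e) {κ : ℝ} (hκ : 0 ≤ κ) (h1 : e * (1 - c * δ) + κ < 1) :
    ∃ c' K : ℝ, 0 < c' ∧ ∀ M : ℕ, 1 ≤ M →
      ({u : ℕ | 1 ≤ u ∧ u ≤ M ∧ ¬ ∀ x : ℤ, x ≠ 0 → |(|x| : ℝ) - G (comp fs u)| ≤ (comp fs u : ℝ) ^ κ →
        ¬ P x (|(x : ℝ)| ^ δ)}.ncard : ℝ) ≤ K * M * Real.exp (-(c' * Real.log M ^ ((1 : ℝ) / (fs.length + 1)))) := by
  obtain ⟨K, hK, hcount⟩ := tail_pow hmono hC hc h hδ hcδ
  obtain ⟨c', K', hc', hN₀⟩ := windows {x : ℤ | x ≠ 0 ∧ P x (|(x : ℝ)| ^ δ)} (fun x : ℤ => |(x : ℝ)|) fs hfs hG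
    (s := 1 - c * δ) (κ := κ) (by linarith) hκ h1 (fun ε hε => ⟨K, fun X hX => by
      have e1 : {t : ℤ | t ∈ {x : ℤ | x ≠ 0 ∧ P x (|(x : ℝ)| ^ δ)} ∧ |(t : ℝ)| ≤ X} =
          {x : ℤ | |(x : ℝ)| ≤ X ∧ (x ≠ 0 ∧ P x (|(x : ℝ)| ^ δ))} := by
        ext x
        simp only [Set.mem_ofPred_eq]
        tauto
      rw [e1]
      exact ⟨fin_abs _ _, (hcount X hX).trans (mul_le_mul_of_nonneg_left
        (Real.rpow_le_rpow_of_exponent_le hX (by linarith)) hK.le)⟩⟩)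
  refine ⟨c', K', hc', fun N hN => le_trans (le_of_eq ?_) (hN₀ N hN)⟩
  congr 2
  ext u
  simp only [Set.mem_ofPred_eq]
  constructor
  · rintro ⟨h2, h3, h4⟩
    push Not at h4
    obtain ⟨x, hx, h5, h6⟩ := h4
    exact ⟨h2, h3, x, ⟨hx, h6⟩, h5⟩
  · rintro ⟨h2, h3, x, ⟨hx, h6⟩, h5⟩
    exact ⟨h2, h3, fun h => h x hx h5 h6⟩

/-- **Negative odd integers near the values of compositions of additive functions.** There is `c` with
`0.0500... = 1 - H(log_3 2) < c < 1` such that the following holds. (1) Let `F` be a composition of a list `fs` of functions which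
are dominated by the largest prime factor (`PD`). Let `G` have steps `≥ a > 0` and growth at most `v^e`. Let `κ ≥ 0`, `0 < δ ≤ 1`
and `e (1 - c δ) + κ < 1`. Then for all `u ≤ M` but `K M exp(-c' (log M)^(1/(k+1)))`, `k` the length of the list, the Syracuse
orbit of EVERY negative odd integer `N` with `||N| - G (F u)| ≤ F(u)^κ` enters `[-|N|^δ, -1]`. (2) Examples: additive functions
with `f (q^j) ≤ C q^j` at the prime powers and injective at the large primes, the sum of the prime factors with multiplicity, the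
largest prime factor, and Kempner's function; and `G v = α v^e` with `α > 0`, `e ≥ 1`. -/
theorem result :
    (∃ c : ℝ, 1 - Real.binEntropy (Real.log 2 / Real.log 3) / Real.log 2 < c ∧ c < 1 ∧
      ∀ fs : List (ℕ → ℕ), (∀ f ∈ fs, PD f) → ∀ (G : ℕ → ℝ) (e : ℝ), Expanding G e → ∀ κ δ : ℝ, 0 ≤ κ → 0 < δ → δ ≤ 1 →
        e * (1 - c * δ) + κ < 1 → ∃ c' K : ℝ, 0 < c' ∧ ∀ M : ℕ, 1 ≤ M →
          ({u : ℕ | 1 ≤ u ∧ u ≤ M ∧ ¬ ∀ N : ℤ, N < 0 → Odd N →
            |(|N| : ℝ) - G (comp fs u)| ≤ (comp fs u : ℝ) ^ κ →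
            ∃ k : ℕ, -|(N : ℝ)| ^ δ ≤ ((Syr^[k] N : ℤ) : ℝ) ∧ Syr^[k] N ≤ -1}.ncard : ℝ) ≤
            K * M * Real.exp (-(c' * Real.log M ^ ((1 : ℝ) / (fs.length + 1))))) ∧
    ((∀ f : ℕ → ℕ, (∀ a b : ℕ, Nat.Coprime a b → f (a * b) = f a + f b) →
        (∃ C : ℕ, ∀ q j : ℕ, q.Prime → 1 ≤ j → f (q ^ j) ≤ C * q ^ j) →
        (∃ P : ℕ, ∀ p q : ℕ, p.Prime → q.Prime → P ≤ p → P ≤ q → f p = f q → p = q) → PD f) ∧
      PD (fun n => n.primeFactorsList.sum) ∧ PD (fun n => n.primeFactors.sup id) ∧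
      PD (fun n => sInf {k : ℕ | n ∣ k.factorial}) ∧
      ∀ α d : ℝ, 0 < α → 1 ≤ d → Expanding (fun v => α * (v : ℝ) ^ d) d) := by
  refine ⟨?_, fun f h1 h2 h3 => pd_additive h1 h2 h3, pd_sopfr, pd_largest, pd_kempner,
    fun α d hα hd => expanding_pow hα hd⟩
  obtain ⟨c, hc0, hc1, hch, htail⟩ := Pool.Agent.Results.MP_fd8838_nt.MultiplicativeValues.tail 2 3 le_rfl (by norm_num)
    (by norm_num) (by norm_num)
  have hent := hch (by norm_num)
  push_cast at hent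
  rw [Real.qaryEntropy_two] at hent
  refine ⟨c, hent, hc1, fun fs hfs G e hG κ δ hκ hδ0 hδ1 h1 => ?_⟩
  obtain ⟨C, hC, hcount⟩ := htail r0 (by
    intro j h1 h2
    obtain rfl : j = 1 := by omega
    unfold r0
    decide)
  obtain ⟨c', K, hc', hN₀⟩ := keep_tail (P := fun x y => ∀ k : ℕ, y < |(((T 2 3 r0)^[k] x : ℤ) : ℝ)|)
    (fun x y y' hy h k => lt_of_le_of_lt hy (h k)) hC hc0 hcount hδ0 (by nlinarith) fs hfs hG hκ h1
  refine ⟨c', K, hc', fun N hN => le_trans ?_ (hN₀ N hN)⟩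
  have hfin : {u : ℕ | 1 ≤ u ∧ u ≤ N ∧ ¬ ∀ x : ℤ, x ≠ 0 → |(|x| : ℝ) - G (comp fs u)| ≤ (comp fs u : ℝ) ^ κ →
      ¬ ∀ k : ℕ, |(x : ℝ)| ^ δ < |(((T 2 3 r0)^[k] x : ℤ) : ℝ)|}.Finite := by
    apply (Set.finite_Icc 1 N).subset
    intro u hu
    exact ⟨hu.1, hu.2.1⟩
  have hsub : {u : ℕ | 1 ≤ u ∧ u ≤ N ∧ ¬ ∀ n : ℤ, n < 0 → Odd n →
      |(|n| : ℝ) - G (comp fs u)| ≤ (comp fs u : ℝ) ^ κ →
      ∃ k : ℕ, -|(n : ℝ)| ^ δ ≤ ((Syr^[k] n : ℤ) : ℝ) ∧ Syr^[k] n ≤ -1} ⊆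
      {u : ℕ | 1 ≤ u ∧ u ≤ N ∧ ¬ ∀ x : ℤ, x ≠ 0 → |(|x| : ℝ) - G (comp fs u)| ≤ (comp fs u : ℝ) ^ κ →
      ¬ ∀ k : ℕ, |(x : ℝ)| ^ δ < |(((T 2 3 r0)^[k] x : ℤ) : ℝ)|} := by
    rintro u ⟨a1, a2, a3⟩
    refine ⟨a1, a2, fun h => a3 fun n hn hodd hx => ?_⟩
    have h2 := h n hn.ne hx
    push Not at h2
    obtain ⟨k, hk⟩ := h2
    have hn2 : ¬ (2 : ℤ) ∣ n := by
      rw [Int.odd_iff] at hodd
      omega
    obtain ⟨j, a, h3, h4⟩ := odd_part hn2 k
    have h5 := iter_neg hn k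
    have h6 : (0 : ℤ) < 2 ^ a := by positivity
    have h7 : Syr^[j] n < 0 := by
      by_contra hcon
      push Not at hcon
      have : 0 ≤ 2 ^ a * Syr^[j] n := mul_nonneg h6.le hcon
      omega
    refine ⟨j, ?_, by omega⟩
    have h8 : |((Syr^[j] n : ℤ) : ℝ)| ≤ |(((T 2 3 r0)^[k] n : ℤ) : ℝ)| := by
      rw [h3]
      push_cast
      rw [abs_mul, abs_of_pos (by positivity : (0 : ℝ) < 2 ^ a)]
      have : (1 : ℝ) ≤ 2 ^ a := one_le_pow₀ (by norm_num)
      nlinarith [abs_nonneg ((Syr^[j] n : ℤ) : ℝ)]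
    have h9 := neg_abs_le ((Syr^[j] n : ℤ) : ℝ)
    linarith
  exact_mod_cast Set.ncard_le_ncard hsub hfin

end Pool.Agent.Results.MP_005f52_nt.AdditiveValues
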