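import Pool.Agent.N685.FD.NgM

set_option autoImplicit false

/-!
The negative odd integers which enter a cycle of the Syracuse map at a given element after exactly `k`
steps, for all `k` up to the mean value `log X / log (4/3)`.
-/

namespace Pool.Agent.Results.MP_005f52_nt.BasinsToTheMean

/-- The Syracuse map. -/
def Syr (N : ℤ) : ℤ := (3 * N + 1) / 2 ^ padicValInt 2 (3 * N + 1)

/-- `Z` is the set of the terms of a periodic orbit of negative odd integers. -/
def IsCycle (Z : Finset ℤ) : Prop :=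
  ∃ (a : ℤ) (p : ℕ), a < 0 ∧ Odd a ∧ 1 ≤ p ∧ Syr^[p] a = a ∧
    Z = (Finset.range p).image fun i => Syr^[i] a

/-- The orbit of `N` enters `Z` after exactly `k` steps, at the element `c`. -/
def EntersAt (Z : Finset ℤ) (c : ℤ) (k : ℕ) (N : ℤ) : Prop :=
  Syr^[k] N = c ∧ ∀ i < k, Syr^[i] N ∉ Z

/-- The number of the negative odd integers `N ≥ -X` which enter `Z` after exactly `k` steps, at the
element `c`. -/
noncomputable def count (Z : Finset ℤ) (c : ℤ) (X : ℝ) (k : ℕ) : ℕ :=
  {N : ℤ | -X ≤ (N : ℝ) ∧ N < 0 ∧ Odd N ∧ EntersAt Z c k N}.ncard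

/-- `S β = (1 + β log 3) / log 2` -/
noncomputable def S (β : ℝ) : ℝ := (1 + β * Real.log 3) / Real.log 2

/-- `e β = S β H(β / S β) - β log 3`, with the binary entropy `H` (in nats) -/
noncomputable def e (β : ℝ) : ℝ := S β * Real.binEntropy (β / S β) - β * Real.log 3

theorem Syr_eq : Syr = Pool.Agent.Y966.Ng.Sy := rfl

open Pool.Agent.Y966.Ng

theorem mem_cycle {Z : Finset ℤ} (hZ : IsCycle Z) {c : ℤ} (hc : c ∈ Z) :
    c % 2 = 1 ∧ c < 0 ∧ Per c ∧ ∀ u : ℤ, Per u → ∀ j : ℕ, Sy^[j] u = c → u ∈ Z := by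
  obtain ⟨a, p, ha, ho, hp, hpa, rfl⟩ := hZ
  obtain ⟨i, _, rfl⟩ := Finset.mem_image.1 hc
  rw [Syr_eq] at *
  have ho' : a % 2 = 1 := Int.odd_iff.1 ho
  have hPa : Per a := ⟨p, hp, hpa⟩
  obtain ⟨s, hs1, hs2⟩ := Sy_to_T i a ho'
  have hodd : ∀ j : ℕ, Sy^[j] a % 2 = 1 := by
    intro j
    induction j with
    | zero => exact ho'
    | succ j ih =>
      rw [Function.iterate_succ_apply']
      obtain ⟨e, _, _, h⟩ := exists_letter ih
      exact h
  have hneg : Sy^[i] a < 0 := by
    rw [← hs1]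
    exact TZ_iter_neg ha s
  refine ⟨hodd i, hneg, Per_iter hPa i, ?_⟩
  intro u hu j hj
  obtain ⟨q, hq, hqu⟩ := hu
  -- `u` is an iterate of `a`
  have h1 : Sy^[q * j] u = u := by
    rw [Function.iterate_mul]
    exact Function.iterate_fixed hqu j
  have hqj : j ≤ q * j := Nat.le_mul_of_pos_left j hq
  have h2 : Sy^[q * j - j + i] a = u := by
    rw [Function.iterate_add_apply, ← hj, ← Function.iterate_add_apply, Nat.sub_add_cancel hqj, h1]
  rw [Finset.mem_image]
  refine ⟨(q * j - j + i) % p, Finset.mem_range.2 (Nat.mod_lt _ hp), ?_⟩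
  have h3 : Sy^[(q * j - j + i) % p + p * ((q * j - j + i) / p)] a = u := by
    rw [Nat.mod_add_div]
    exact h2
  rw [Function.iterate_add_apply, Function.iterate_mul, Function.iterate_fixed hpa] at h3
  exact h3

theorem set_eq {Z : Finset ℤ} (hZ : IsCycle Z) {c : ℤ} (hc : c ∈ Z) (X : ℝ) (k : ℕ) :
    {N : ℤ | -X ≤ (N : ℝ) ∧ N < 0 ∧ Odd N ∧ EntersAt Z c k N} = ES c X k := by
  ext N
  constructor
  · rintro ⟨h1, h2, h3, h4, h5⟩
    refine ⟨Int.odd_iff.1 h3, h2, h1, h4, fun i hi hP => h5 i hi ?_⟩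
    apply (mem_cycle hZ hc).2.2.2 _ hP (k - i)
    rw [← Function.iterate_add_apply, Nat.sub_add_cancel hi.le]
    exact h4
  · rintro ⟨h1, h2, h3, h4, h5⟩
    exact ⟨h3, h2, Int.odd_iff.2 h1, h4, fun i hi hP => h5 i hi (mem_cycle hZ hP).2.2.1⟩

theorem cyc1 : IsCycle {-1} := by
  have h1 : Syr (-1) = -1 := Sy_letter (e := 1) (by norm_num) (by norm_num)
  refine ⟨-1, 1, by norm_num, by decide, le_rfl, h1, ?_⟩
  simp

theorem cyc2 : IsCycle {-5, -7} := by
  have h1 : Syr (-5) = -7 := Sy_letter (e := 1) (by norm_num) (by norm_num)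
  have h2 : Syr (-7) = -5 := Sy_letter (e := 2) (by norm_num) (by norm_num)
  have e2 : Syr^[2] (-5) = -5 := by
    rw [Function.iterate_succ_apply, h1, Function.iterate_one, h2]
  refine ⟨-5, 2, by norm_num, by decide, by norm_num, e2, ?_⟩
  rw [show Finset.range 2 = {0, 1} from rfl]
  simp only [Finset.image_insert, Finset.image_singleton, Function.iterate_zero, id,
    Function.iterate_one, h1]

theorem cyc3 : IsCycle {-17, -25, -37, -55, -41, -61, -91} := by
  have s17 : Syr (-17) = -25 := Sy_letter (e := 1) (by norm_num) (by norm_num)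
  have s25 : Syr (-25) = -37 := Sy_letter (e := 1) (by norm_num) (by norm_num)
  have s37 : Syr (-37) = -55 := Sy_letter (e := 1) (by norm_num) (by norm_num)
  have s55 : Syr (-55) = -41 := Sy_letter (e := 2) (by norm_num) (by norm_num)
  have s41 : Syr (-41) = -61 := Sy_letter (e := 1) (by norm_num) (by norm_num)
  have s61 : Syr (-61) = -91 := Sy_letter (e := 1) (by norm_num) (by norm_num)
  have s91 : Syr (-91) = -17 := Sy_letter (e := 4) (by norm_num) (by norm_num)
  have h1 : Syr^[1] (-17) = -25 := s17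
  have h2 : Syr^[2] (-17) = -37 := by rw [Function.iterate_succ_apply', h1, s25]
  have h3 : Syr^[3] (-17) = -55 := by rw [Function.iterate_succ_apply', h2, s37]
  have h4 : Syr^[4] (-17) = -41 := by rw [Function.iterate_succ_apply', h3, s55]
  have h5 : Syr^[5] (-17) = -61 := by rw [Function.iterate_succ_apply', h4, s41]
  have h6 : Syr^[6] (-17) = -91 := by rw [Function.iterate_succ_apply', h5, s61]
  have h7 : Syr^[7] (-17) = -17 := by rw [Function.iterate_succ_apply', h6, s91]
  refine ⟨-17, 7, by norm_num, by decide, by norm_num, h7, ?_⟩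
  rw [show Finset.range 7 = {0, 1, 2, 3, 4, 5, 6} from rfl]
  simp only [Finset.image_insert, Finset.image_singleton, h1, h2, h3, h4, h5, h6]
  rfl

/-- (1) Let `Z` be a cycle of negative odd integers (known or not) and `c` an element of `Z`. For every
`ε > 0`, all large `X` and all `1 ≤ k ≤ log X / log (4/3)` the number of the negative odd `N ≥ -X` which
enter `Z` after exactly `k` steps, at the element `c`, is between `X ^ (e(k / log X) - ε)` and
`X ^ (e(k / log X) + ε)`. (2) `0 < e β < 1` for `0 < β < 1 / log (4/3)`, and `e (1 / log (4/3)) = 1`.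
(3) The three known cycles are cycles. -/
theorem result :
    (∀ Z : Finset ℤ, IsCycle Z → ∀ c ∈ Z, ∀ ε : ℝ, 0 < ε → ∃ X₀ : ℝ, ∀ X : ℝ, X₀ ≤ X → ∀ k : ℕ,
      1 ≤ k → (k : ℝ) ≤ Real.log X / Real.log (4 / 3) →
      X ^ (e (k / Real.log X) - ε) ≤ (count Z c X k : ℝ) ∧
        (count Z c X k : ℝ) ≤ X ^ (e (k / Real.log X) + ε)) ∧
    (∀ β : ℝ, 0 < β → β < 1 / Real.log (4 / 3) → 0 < e β ∧ e β < 1) ∧
    e (1 / Real.log (4 / 3)) = 1 ∧
    IsCycle {-1} ∧ IsCycle {-5, -7} ∧ IsCycle {-17, -25, -37, -55, -41, -61, -91} := by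
  have hl2 : 0 < Real.log 2 := Real.log_pos (by norm_num)
  have hl3 : 0 < Real.log 3 := Real.log_pos (by norm_num)
  have h43 : 0 < Real.log (4 / 3) := Real.log_pos (by norm_num)
  refine ⟨?_, ?_, ?_, cyc1, cyc2, cyc3⟩
  · intro Z hZ c hc ε hε
    obtain ⟨g1, g2, g3, _⟩ := mem_cycle hZ hc
    obtain ⟨X₀, _, h⟩ := Pool.Agent.N685.FD.ng_main_entry g1 g2 g3 hε
    refine ⟨X₀, fun X hX k hk hk2 => ?_⟩
    unfold count
    rw [set_eq hZ hc]
    refine h X hX k hk ?_
    rw [one_div, inv_mul_eq_div]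
    exact hk2
  · intro β h0 h1
    obtain ⟨g1, g2⟩ := Pool.Agent.N685.FT.SS_rho_half h0 h1.le
    have hS := Pool.Agent.Y966.LD.SS_pos h0.le
    have h3 : e β = Pool.Agent.Y966.LD.SS β *
        Pool.Agent.H395R2.G3.FF (β / Pool.Agent.Y966.LD.SS β) :=
      Pool.Agent.Y966.LD.ee_eq h0.le
    constructor
    · rw [h3]
      exact mul_pos hS (Pool.Agent.H395R2.G3.FF_pos_of g1
        (lt_of_le_of_lt g2 Pool.Agent.N685.FT.half_lt) (by norm_num) Pool.Agent.H395R2.G3.FF_low.le)
    · have g3 : β / Pool.Agent.Y966.LD.SS β < 1 / 2 := by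
        rw [div_lt_iff₀ hS]
        rw [lt_div_iff₀ h43, Pool.Agent.N685.FT.log43] at h1
        unfold Pool.Agent.Y966.LD.SS
        have : 1 / 2 * ((1 + β * Real.log 3) / Real.log 2) =
            (1 + β * Real.log 3) / (2 * Real.log 2) := by
          field_simp
        rw [this, lt_div_iff₀ (by positivity)]
        linarith
      have g4 : Real.binEntropy (β / Pool.Agent.Y966.LD.SS β) < Real.log 2 :=
        Real.binEntropy_lt_log_two.2 (by
          intro h
          rw [h] at g3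
          norm_num at g3)
      have g5 : e β = Pool.Agent.Y966.LD.SS β *
          Real.binEntropy (β / Pool.Agent.Y966.LD.SS β) - β * Real.log 3 := rfl
      rw [g5]
      have g6 : Pool.Agent.Y966.LD.SS β * Real.log 2 = 1 + β * Real.log 3 := by
        unfold Pool.Agent.Y966.LD.SS
        field_simp
      have g7 := mul_lt_mul_of_pos_left g4 hS
      linarith
  · have g1 : S (1 / Real.log (4 / 3)) = 2 / Real.log (4 / 3) := by
      unfold S
      have h5 := Pool.Agent.N685.FT.log43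
      have h6 : 1 + 1 / Real.log (4 / 3) * Real.log 3 = 2 * Real.log 2 / Real.log (4 / 3) := by
        field_simp
        linarith
      rw [h6]
      field_simp
    unfold e
    rw [g1]
    have g2 : 1 / Real.log (4 / 3) / (2 / Real.log (4 / 3)) = 2⁻¹ := by
      field_simp
    rw [g2, Real.binEntropy_two_inv]
    have h5 := Pool.Agent.N685.FT.log43
    field_simp
    linarith

end Pool.Agent.Results.MP_005f52_nt.BasinsToTheMean
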