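import Pool.Agent.N671.DA.Win
import Pool.Agent.Results.MP_005f52_nt.MultiplicativeValues

/-!
# Negative odd integers near functions of the denominators of good approximations

Let `α_1, …, α_m` be real numbers. We consider the natural numbers `q` with `‖q α_j - β_j‖ ≤ b q^(-τ)` for all `j`, `‖x‖` the
distance to the nearest integer; for `β = 0`, `b = 1`, `τ = 1 / m` these include the denominators of all best simultaneous
approximations (the denominators of the convergents for `m = 1`). They form a very sparse sequence, with gaps growing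
exponentially for almost all `α` if `τ = 1 / m`. We show: there is `c` with `0.0500... = 1 - H(log_3 2) < c < 1` such that for a
function `G` with steps bounded below by a positive constant and growth at most `v^e`, for example `a v^e`, and `0 < δ ≤ 1`, for
all `α` in `ℝ^m` outside a set of Hausdorff dimension at most `(m + e (1 - c δ) + κ) / (1 + τ)`, and all `b`, for all but
finitely many such `q` EVERY negative odd integer `N` with `||N| - G q| ≤ q^κ` has a Syracuse orbit which enters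
`[-|N|^δ, -1]`. For `τ = 1 / m` the bound is less than `m` if `e (1 - c δ) + κ < 1`; and so the statement holds for almost all
`α`, for example for all `δ > 0` and all `N` with `||N| - a q| ≤ q^κ`, `κ < c δ`.

Proof. Only `O(X^(1 - c δ))` of the integers up to `X` have orbits which do not come down to `|N|^δ` (starting library), and so
the `q` such that `G q` is near such an integer form a set with `O(X^(e (1 - c δ) + κ))` elements up to `X`; and the `α` with
`‖q α_j - β_j‖ ≤ b q^(-τ)` for all `j` and infinitely many `q` of such a set are covered by few small cubes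
(`Pool.Agent.N671.DA`, helper671).
-/

set_option autoImplicit false

namespace Pool.Agent.Results.MP_005f52_nt.SimultaneousApproximations

open Pool.Agent.N671.DA (Solves Expanding expanding_pow approx_good)
open Pool.Agent.Results.MP_fd8838_nt.MultiplicativeValues (T)
open Pool.Agent.Results.MP_005f52_nt.MultiplicativeValues (Syr r0 odd_part iter_neg)

/-- **Negative odd integers near the denominators of good approximations.** There is `c` with
`0.0500... = 1 - H(log_3 2) < c < 1` such that the following holds. Let `G` have steps `≥ a > 0` and growth at most `v^e`. Let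
`0 ≤ κ ≤ 1`, `0 < δ ≤ 1`, `β` in `ℝ^m` and `τ > 0`. For all `α` in `ℝ^m` outside a set of Hausdorff dimension at most
`(m + e (1 - c δ) + κ) / (1 + τ)` and all `b`, for all large `q` with `‖q α_j - β_j‖ ≤ b q^(-τ)` for all `j`, the Syracuse
orbit of EVERY negative odd integer `N` with `||N| - G q| ≤ q^κ` enters `[-|N|^δ, -1]`. The functions `a v^e` with `a > 0`,
`e ≥ 1` are examples of `G`. -/
theorem result :
    (∃ c : ℝ, 1 - Real.binEntropy (Real.log 2 / Real.log 3) / Real.log 2 < c ∧ c < 1 ∧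
      ∀ (G : ℕ → ℝ) (e : ℝ), Expanding G e → ∀ κ δ : ℝ, 0 ≤ κ → κ ≤ 1 → 0 < δ → δ ≤ 1 →
      ∀ (m : ℕ) (β : Fin m → ℝ) (τ : ℝ), 0 < τ →
      ∃ E : Set (Fin m → ℝ), dimH E ≤ ENNReal.ofReal ((m + (e * (1 - c * δ) + κ)) / (1 + τ)) ∧
        ∀ α, α ∉ E → ∀ b : ℝ, ∃ Q : ℕ, ∀ q : ℕ, Q ≤ q → Solves α β q (b * (q : ℝ) ^ (-τ)) →
          ∀ N : ℤ, N < 0 → Odd N → |(|N| : ℝ) - G q| ≤ (q : ℝ) ^ κ →
            ∃ k : ℕ, -|(N : ℝ)| ^ δ ≤ ((Syr^[k] N : ℤ) : ℝ) ∧ Syr^[k] N ≤ -1) ∧
    ∀ a e : ℝ, 0 < a → 1 ≤ e → Expanding (fun v => a * (v : ℝ) ^ e) e := by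
  refine ⟨?_, fun a e ha he => expanding_pow ha he⟩
  obtain ⟨c, hc0, hc1, hch, htail⟩ := Pool.Agent.Results.MP_fd8838_nt.MultiplicativeValues.tail 2 3 le_rfl (by norm_num)
    (by norm_num) (by norm_num)
  have hent := hch (by norm_num)
  push_cast at hent
  rw [Real.qaryEntropy_two] at hent
  refine ⟨c, hent, hc1, fun G e hG κ δ hκ hκ1 hδ0 hδ1 m β τ hτ => ?_⟩
  obtain ⟨C, hC, hcount⟩ := htail r0 (by
    intro j h1 h2
    obtain rfl : j = 1 := by omega
    unfold r0
    decide)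
  have hcδ : c * δ < 1 := by nlinarith
  obtain ⟨K, hK, hcount2⟩ := Pool.Agent.N60.MV.tail_pow (P := fun x y => ∀ k : ℕ, y < |(((T 2 3 r0)^[k] x : ℤ) : ℝ)|)
    (fun x y y' hy h k => lt_of_le_of_lt hy (h k)) hC hc0 hcount hδ0 hcδ
  obtain ⟨E, hE, hE2⟩ := approx_good (fun x : ℤ => x ≠ 0)
    (fun x : ℤ => ¬ ∀ k : ℕ, |(x : ℝ)| ^ δ < |(((T 2 3 r0)^[k] x : ℤ) : ℝ)|) (fun x : ℤ => |(x : ℝ)|) hG
    (s := 1 - c * δ) (κ := κ) (by linarith) hκ hκ1 (fun ε hε => ⟨K, fun X hX => by
      have e1 : {t : ℤ | (t ≠ 0 ∧ ¬ ¬ ∀ k : ℕ, |(t : ℝ)| ^ δ < |(((T 2 3 r0)^[k] t : ℤ) : ℝ)|) ∧ |(t : ℝ)| ≤ X} =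
          {x : ℤ | |(x : ℝ)| ≤ X ∧ (x ≠ 0 ∧ ∀ k : ℕ, |(x : ℝ)| ^ δ < |(((T 2 3 r0)^[k] x : ℤ) : ℝ)|)} := by
        ext x
        simp only [Set.mem_ofPred_eq]
        tauto
      rw [e1]
      exact ⟨Pool.Agent.N60.MV.fin_abs _ _, (hcount2 X hX).trans (mul_le_mul_of_nonneg_left
        (Real.rpow_le_rpow_of_exponent_le hX (by linarith)) hK.le)⟩⟩) β hτ
  refine ⟨E, hE, fun α hα b => ?_⟩
  obtain ⟨Q, hQ⟩ := hE2 α hα b
  refine ⟨Q, fun q hq hs n hn hodd hx => ?_⟩
  have h2 := hQ q hq hs n hn.ne hx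
  push Not at h2
  obtain ⟨k, hk⟩ := h2
  have hn2 : ¬ (2 : ℤ) ∣ n := by
    rw [Int.odd_iff] at hodd
    omega
  obtain ⟨j, a, h3, h4⟩ := odd_part hn2 k
  have h5 := iter_neg hn k
  have h6 : (0 : ℤ) < 2 ^ a := by positivity
  have h7 : Syr^[j] n < 0 := by
    by_contra hcon
    push Not at hcon
    have : 0 ≤ 2 ^ a * Syr^[j] n := mul_nonneg h6.le hcon
    omega
  refine ⟨j, ?_, by omega⟩
  have h8 : |((Syr^[j] n : ℤ) : ℝ)| ≤ |(((T 2 3 r0)^[k] n : ℤ) : ℝ)| := by
    rw [h3]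
    push_cast
    rw [abs_mul, abs_of_pos (by positivity : (0 : ℝ) < 2 ^ a)]
    have : (1 : ℝ) ≤ 2 ^ a := one_le_pow₀ (by norm_num)
    nlinarith [abs_nonneg ((Syr^[j] n : ℤ) : ℝ)]
  have h9 := neg_abs_le ((Syr^[j] n : ℤ) : ℝ)
  linarith

end Pool.Agent.Results.MP_005f52_nt.SimultaneousApproximations
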